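import Pool.Agent.R338.CT.Law
import Pool.Agent.Y710.CX.NS

/-! The exact proportion of the tuples of primes whose product does not split. -/

set_option autoImplicit false

open scoped Classical

namespace Pool.Agent.R338.CT

open Finset Pool.Agent.Y703.CX
open Pool.Agent.R338.CU (hL)
open Pool.Agent.Y703.CT (Cls NoSplit)

/-- the product of the primes of a tuple -/
def D {r : ℕ} (p : Fin (r + 1) → ℕ) : ℕ := ∏ i, p i

/-- the condition modulo `9` -/
def Adm (n : ℕ) : Prop := n % 9 ≠ 1 ∧ n % 9 ≠ 8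

theorem Sets.inj {r : ℕ} {P : Fin (r + 1) → Finset ℕ} {X : Fin (r + 1) → ℕ} {z : ℕ}
    (h : Sets P X z) {p : Fin (r + 1) → ℕ} (hp : ∀ i, p i ∈ P i) : Function.Injective p := by
  intro i l hil
  by_contra hne
  exact disjoint_left.1 (h.dis i l hne) (hp i) (hil ▸ hp l)

section tup

variable {r : ℕ} {p : Fin (r + 1) → ℕ} (hi : Function.Injective p) (hp : ∀ i, (p i).Prime)

include hi hp

theorem D_sqf : Squarefree (D p) := by
  unfold D
  refine Finset.squarefree_prod_of_pairwise_isCoprime (fun i _ j _ hij => ?_)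
    fun i _ => (hp i).squarefree
  show IsRelPrime (p i) (p j)
  rw [← Nat.coprime_iff_isRelPrime]
  exact (Nat.coprime_primes (hp i) (hp j)).mpr fun h => hij (hi h)

theorem D_pf : (D p).primeFactors = univ.image p := by
  unfold D
  rw [← Finset.prod_image (s := univ) (g := p) (f := fun q => q) fun i _ j _ h => hi h]
  exact Nat.primeFactors_prod fun q hq => by
    obtain ⟨i, -, rfl⟩ := mem_image.1 hq
    exact hp i

theorem cls_D (h2 : p 0 % 3 = 2) (h1 : ∀ i, i ≠ 0 → p i % 3 = 1) (ha : Adm (D p)) :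
    Squarefree (D p) ∧ Cls (D p) := by
  have hs := D_sqf hi hp
  refine ⟨hs, (Pool.Agent.Y710.CX.cls_iff hs).2 ?_⟩
  have e := Nat.prod_primeFactors_of_squarefree hs
  refine ⟨?_, ?_, ?_⟩
  · rw [D_pf hi hp]
    intro q hq
    obtain ⟨i, -, rfl⟩ := mem_image.1 hq
    refine ⟨hp i, fun h3 => ?_⟩
    by_cases h : i = 0
    · rw [h] at h3
      omega
    · have := h1 i h
      omega
  · rw [D_pf hi hp, card_eq_one]
    refine ⟨p 0, ?_⟩
    ext q
    rw [mem_filter, mem_singleton, mem_image]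
    constructor
    · rintro ⟨⟨i, -, rfl⟩, h⟩
      by_contra hne
      have := h1 i fun h' => hne (by rw [h'])
      omega
    · rintro rfl
      exact ⟨⟨0, mem_univ _, rfl⟩, h2⟩
  · rw [e]
    exact ha

omit hp in
theorem gd_iff (h2 : p 0 % 3 = 2) (h1 : ∀ i, i ≠ 0 → p i % 3 = 1) :
    Gd (univ.image p) ↔
      G (Pool.Agent.Y703.CX.ext fun e : prs (J r) => lam (p e.1.1) (p e.1.2)) := by
  have key : ∀ (c : Fin (r + 1) → ZMod 3) (i : Fin (r + 1)), i ≠ 0 →
      ∑ j, (c j - c i) * (Pool.Agent.Y703.CX.ext fun e : prs (J r) => lam (p e.1.1) (p e.1.2)) i j =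
        ∑ j, (c j - c i) * lam (p i) (p j) := by
    intro c i h0
    refine sum_congr rfl fun j _ => ?_
    unfold Pool.Agent.Y703.CX.ext
    split_ifs with h
    · rfl
    · rw [mem_prs] at h
      have h3 : j = i := by
        by_contra h4
        exact h ⟨h0, h4⟩
      rw [h3, sub_self, zero_mul, zero_mul]
  constructor
  · intro h c hc
    obtain ⟨c', hc'⟩ : ∃ c' : ℕ → ZMod 3, ∀ i, c' (p i) = c i :=
      ⟨fun q => if hq : ∃ i, p i = q then c hq.choose else 0, fun i => by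
        have hex : ∃ j, p j = p i := ⟨i, rfl⟩
        simp only [dif_pos hex]
        rw [hi hex.choose_spec]⟩
    have h3 := h c' (fun q hq hq1 => by
      obtain ⟨i, -, rfl⟩ := mem_image.1 hq
      rw [sum_image fun a _ b _ hab => hi hab]
      have h0 : i ≠ 0 := by
        rintro rfl
        omega
      have h4 := hc i h0
      rw [key c i h0] at h4
      rw [← h4]
      refine sum_congr rfl fun j _ => ?_
      rw [hc', hc'])
    intro i j
    have := h3 (p i) (mem_image_of_mem _ (mem_univ _)) (p j) (mem_image_of_mem _ (mem_univ _))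
    rwa [hc', hc'] at this
  · intro h c hc q hq q' hq'
    obtain ⟨i, -, rfl⟩ := mem_image.1 hq
    obtain ⟨j, -, rfl⟩ := mem_image.1 hq'
    refine h (fun k => c (p k)) (fun k hk => ?_) i j
    rw [key (fun k => c (p k)) k hk]
    have h3 := hc (p k) (mem_image_of_mem _ (mem_univ _)) (h1 k hk)
    rwa [sum_image fun a _ b _ hab => hi hab] at h3

theorem nosplit_iff (h2 : p 0 % 3 = 2) (h1 : ∀ i, i ≠ 0 → p i % 3 = 1) (ha : Adm (D p)) :
    NoSplit (D p) ↔
      G (Pool.Agent.Y703.CX.ext fun e : prs (J r) => lam (p e.1.1) (p e.1.2)) := by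
  obtain ⟨hs, hC⟩ := cls_D hi hp h2 h1 ha
  have hcl := (Pool.Agent.Y710.CX.cls_iff hs).1 hC
  rw [← gd_iff hi h2 h1, ← D_pf hi hp]
  exact ⟨Pool.Agent.Y710.CX.gd_of_nosplit hL hs hcl, Pool.Agent.Y710.CX.nosplit_of_gd hL hs hcl⟩

end tup

/-- **the main count** -/
theorem main : ∃ C : ℝ, 1 ≤ C ∧ ∀ (r : ℕ) (P : Fin (r + 1) → Finset ℕ) (X : Fin (r + 1) → ℕ)
    (z : ℕ), Sets P X z →
    |((((Fintype.piFinset P).filter fun p => Adm (D p) ∧ NoSplit (D p)).card : ℕ) : ℝ) -
      pr r * ((((Fintype.piFinset P).filter fun p => Adm (D p)).card : ℕ) : ℝ)| ≤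
    9 ^ (r + 1) * (3 ^ (r * r) * (C * (z : ℝ) ^ (-(1 / 12 : ℝ)) * ∏ j, (X j : ℝ))) := by
  obtain ⟨C, hC1, hC⟩ := law
  refine ⟨C, hC1, fun r P X z hS => ?_⟩
  set E : ℝ := 3 ^ (r * r) * (C * (z : ℝ) ^ (-(1 / 12 : ℝ)) * ∏ j, (X j : ℝ)) with hE
  have hE0 : 0 ≤ E := by positivity
  set Pu : (Fin (r + 1) → ZMod 9) → Fin (r + 1) → Finset ℕ :=
    fun u i => (P i).filter fun p => (p : ZMod 9) = u i with hPu
  have hSu : ∀ u, Sets (Pu u) X z := fun u =>
    { one := hS.one
      le := hS.le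
      two := fun p hp => hS.two p (mem_filter.1 hp).1
      m3 := fun i h0 p hp => hS.m3 i h0 p (mem_filter.1 hp).1
      mem := fun i p hp => hS.mem i p (mem_filter.1 hp).1
      dis := fun i l hil => disjoint_left.2 fun p hp hp' =>
        disjoint_left.1 (hS.dis i l hil) (mem_filter.1 hp).1 (mem_filter.1 hp').1 }
  -- the classes
  have hadm : ∀ (u : Fin (r + 1) → ZMod 9) (p : Fin (r + 1) → ℕ), (∀ i, (p i : ZMod 9) = u i) →
      (Adm (D p) ↔ Adm (∏ i, u i).val) := by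
    intro u p hu
    have h1 : ((D p : ℕ) : ZMod 9) = ∏ i, u i := by
      unfold D
      rw [Nat.cast_prod]
      exact prod_congr rfl fun i _ => hu i
    have h2 : (∏ i, u i).val = D p % 9 := by
      rw [← h1, ZMod.val_natCast]
    rw [h2]
    unfold Adm
    rw [Nat.mod_mod]
  set U := univ.filter fun u : Fin (r + 1) → ZMod 9 => Adm (∏ i, u i).val with hU
  have hdec : ∀ Q : (Fin (r + 1) → ℕ) → Prop,
      ((((Fintype.piFinset P).filter fun p => Adm (D p) ∧ Q p).card : ℕ) : ℝ) =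
        ∑ u ∈ U, ((({p : Fin (r + 1) → ℕ | (∀ i, p i ∈ Pu u i) ∧ Q p}.ncard : ℕ) : ℝ)) := by
    intro Q
    have h5 := card_eq_sum_card_fiberwise (f := fun (p : Fin (r + 1) → ℕ) i => (p i : ZMod 9))
      (s := (Fintype.piFinset P).filter fun p => Adm (D p) ∧ Q p) (t := U) (by
        intro p hp
        rw [mem_coe, mem_filter] at hp
        rw [mem_coe, hU, mem_filter]
        exact ⟨mem_univ _, (hadm _ p fun i => rfl).1 hp.2.1⟩)
    rw [h5]
    push_cast
    refine sum_congr rfl fun u hu => ?_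
    rw [← Set.ncard_coe_finset]
    congr 2
    ext p
    rw [hU, mem_filter] at hu
    simp only [coe_filter, Fintype.mem_piFinset, mem_filter, hPu, Set.mem_ofPred_eq, funext_iff]
    constructor
    · rintro ⟨⟨h6, h7, h8⟩, h9⟩
      exact ⟨fun i => ⟨h6 i, h9 i⟩, h8⟩
    · rintro ⟨h6, h7⟩
      exact ⟨⟨fun i => (h6 i).1, (hadm u p fun i => (h6 i).2).2 hu.2, h7⟩, fun i => (h6 i).2⟩
  have h1 : ∀ u ∈ U, |(({p : Fin (r + 1) → ℕ | (∀ i, p i ∈ Pu u i) ∧ NoSplit (D p)}.ncard : ℕ) : ℝ) -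
      pr r * (({p : Fin (r + 1) → ℕ | (∀ i, p i ∈ Pu u i) ∧ True}.ncard : ℕ) : ℝ)| ≤ E := by
    intro u hu
    rw [hU, mem_filter] at hu
    have h2 := hC r (Pu u) X z (hSu u) fun α => G (Pool.Agent.Y703.CX.ext α)
    rw [count_pr] at h2
    have e1 : {p : Fin (r + 1) → ℕ | (∀ i, p i ∈ Pu u i) ∧ NoSplit (D p)} =
        {p : Fin (r + 1) → ℕ | (∀ i, p i ∈ Pu u i) ∧
          G (Pool.Agent.Y703.CX.ext fun e : prs (J r) => lam (p e.1.1) (p e.1.2))} := by
      ext p
      refine and_congr_right fun hp => ?_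
      refine nosplit_iff ((hSu u).inj hp) (fun i => ((hSu u).mem i _ (hp i)).1)
        ((hSu u).two _ (hp 0)) (fun i h0 => (hSu u).m3 i h0 _ (hp i)) ?_
      exact (hadm u p fun i => (mem_filter.1 (hp i)).2).2 hu.2
    have e2 : (({p : Fin (r + 1) → ℕ | (∀ i, p i ∈ Pu u i) ∧ True}.ncard : ℕ) : ℝ) =
        ∏ j, ((Pu u j).card : ℝ) := by
      have e3 : {p : Fin (r + 1) → ℕ | (∀ i, p i ∈ Pu u i) ∧ True} =
          ((Fintype.piFinset (Pu u) : Finset (Fin (r + 1) → ℕ)) : Set (Fin (r + 1) → ℕ)) := by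
        ext p
        simp
      rw [e3, Set.ncard_coe_finset, Fintype.card_piFinset]
      push_cast
      rfl
    rw [e1, e2]
    exact h2
  have h2 : ((((Fintype.piFinset P).filter fun p => Adm (D p)).card : ℕ) : ℝ) =
      ∑ u ∈ U, ((({p : Fin (r + 1) → ℕ | (∀ i, p i ∈ Pu u i) ∧ True}.ncard : ℕ) : ℝ)) := by
    rw [← hdec fun _ => True]
    congr 2
    ext p
    simp
  rw [h2, hdec, mul_sum, ← sum_sub_distrib]
  refine (abs_sum_le_sum_abs _ _).trans ((sum_le_sum h1).trans ?_)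
  rw [sum_const, nsmul_eq_mul]
  have h3 : ((U.card : ℕ) : ℝ) ≤ 9 ^ (r + 1) := by
    have h4 : U.card ≤ 9 ^ (r + 1) := by
      refine (card_le_univ _).trans ?_
      rw [Fintype.card_fun, ZMod.card, Fintype.card_fin]
    exact_mod_cast h4
  exact mul_le_mul_of_nonneg_right h3 hE0

end Pool.Agent.R338.CT
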