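import Pool.Agent.R338.CT.Cnt
import Pool.Agent.R419.CF.NS

/-! The twists by all products `p₀^{e₀} ⋯ p_r^{e_r}`, `e₀ ≠ 0`: the criterion in terms of the matrix of the
cubic residue symbols. The criterion for one cube-free number is of helper710 and helper419. -/

set_option autoImplicit false

open scoped Classical

namespace Pool.Agent.R338.CT

open Finset Pool.Agent.Y703.CX
open Pool.Agent.R338.CU (hL)
open Pool.Agent.Y703.CT (Cls NoSplit Base)
open Pool.Agent.R419.CF (wt SolW GdW)
open Pool.Agent.R419.CF.NS (MD gdw_of_nosplit nosplit_of_gdw)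

/-- the number with these exponents -/
def DE {r : ℕ} (p : Fin (r + 1) → ℕ) (e : Fin (r + 1) → ZMod 3) : ℕ := ∏ i, p i ^ (e i).val

/-- all solutions of the system attached to the exponents and the matrix are constant -/
def NS {r : ℕ} (e : Fin (r + 1) → ZMod 3) (m : Fin (r + 1) → Fin (r + 1) → ZMod 3) : Prop :=
  ∀ c : Fin (r + 1) → ZMod 3, (∀ i, i ≠ 0 → e i ≠ 0 →
    ∑ j, (c j - c i) * (e j * m i j) = 0) → ∀ i, e i ≠ 0 → c i = c 0

theorem NS_congr {r : ℕ} (e : Fin (r + 1) → ZMod 3) {m n : Fin (r + 1) → Fin (r + 1) → ZMod 3}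
    (h : ∀ i j, i ≠ 0 → j ≠ i → m i j = n i j) : NS e m ↔ NS e n := by
  have key : ∀ (c : Fin (r + 1) → ZMod 3) (i : Fin (r + 1)), i ≠ 0 →
      ∑ j, (c j - c i) * (e j * m i j) = ∑ j, (c j - c i) * (e j * n i j) := by
    intro c i h0
    refine sum_congr rfl fun j _ => ?_
    by_cases hj : j = i
    · rw [hj, sub_self, zero_mul, zero_mul]
    · rw [h i j h0 hj]
  unfold NS
  refine forall_congr' fun c => ?_
  refine imp_congr ?_ Iff.rfl
  refine forall_congr' fun i => forall_congr' fun h0 => ?_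
  rw [key c i h0]

section tup

variable {r : ℕ} {p : Fin (r + 1) → ℕ} (hi : Function.Injective p) (hp : ∀ i, (p i).Prime)

include hp

theorem DE_ne (e : Fin (r + 1) → ZMod 3) : DE p e ≠ 0 :=
  Finset.prod_ne_zero_iff.2 fun i _ => pow_ne_zero _ (hp i).ne_zero

theorem fac_any (e : Fin (r + 1) → ZMod 3) (q : ℕ) :
    (DE p e).factorization q = ∑ i, if p i = q then (e i).val else 0 := by
  unfold DE
  rw [Nat.factorization_prod fun i _ => pow_ne_zero _ (hp i).ne_zero, Finsupp.finsetSum_apply]
  refine sum_congr rfl fun i _ => ?_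
  rw [(hp i).factorization_pow, Finsupp.single_apply]

include hi

theorem fac_at (e : Fin (r + 1) → ZMod 3) (i : Fin (r + 1)) :
    (DE p e).factorization (p i) = (e i).val := by
  rw [fac_any hp, Finset.sum_eq_single i]
  · rw [if_pos rfl]
  · intro j _ hj
    rw [if_neg fun h => hj (hi h)]
  · exact fun h => absurd (mem_univ _) h

theorem DE_pf (e : Fin (r + 1) → ZMod 3) :
    (DE p e).primeFactors = (univ.filter fun i => e i ≠ 0).image p := by
  ext q
  rw [mem_image, Nat.mem_primeFactors]
  constructor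
  · rintro ⟨hq, hd, h0⟩
    have h1 := (hq.dvd_iff_one_le_factorization h0).1 hd
    rw [fac_any hp] at h1
    obtain ⟨i, -, h2⟩ := Finset.exists_ne_zero_of_sum_ne_zero (by omega :
      ∑ i, (if p i = q then (e i).val else 0) ≠ 0)
    have h3 : p i = q := by
      by_contra h4
      exact h2 (if_neg h4)
    refine ⟨i, mem_filter.2 ⟨mem_univ _, fun h4 => h2 ?_⟩, h3⟩
    rw [if_pos h3, h4]
    rfl
  · rintro ⟨i, h1, rfl⟩
    refine ⟨hp i, ?_, DE_ne hp e⟩
    rw [(hp i).dvd_iff_one_le_factorization (DE_ne hp e), fac_at hi hp]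
    have h2 := (mem_filter.1 h1).2
    have h3 : (e i).val ≠ 0 := fun h => h2 ((ZMod.val_eq_zero _).1 h)
    omega

theorem DE_MD (e : Fin (r + 1) → ZMod 3) (i : Fin (r + 1)) : p i ∈ MD (DE p e) ↔ e i = 2 := by
  have h0 := DE_ne hp e
  unfold MD
  rw [mem_filter, (hp i).pow_dvd_iff_le_factorization h0, fac_at hi hp, DE_pf hi hp]
  constructor
  · rintro ⟨-, h⟩
    generalize e i = a at h
    revert h
    revert a
    decide
  · intro h
    rw [h]
    refine ⟨mem_image_of_mem _ (mem_filter.2 ⟨mem_univ _, ?_⟩), by decide⟩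
    rw [h]
    decide

theorem DE_cls (h2 : p 0 % 3 = 2) (h1 : ∀ i, i ≠ 0 → p i % 3 = 1) {e : Fin (r + 1) → ZMod 3}
    (he : e 0 ≠ 0) (ha : Adm (DE p e)) : Cls (DE p e) := by
  have h0 := DE_ne hp e
  have h3 : ∀ i, p i ≠ 3 := by
    intro i h
    by_cases hi0 : i = 0
    · rw [hi0] at h
      omega
    · have := h1 i hi0
      omega
  have hmem : ∀ q : ℕ, q.Prime → q ∣ DE p e → ∃ i, e i ≠ 0 ∧ p i = q := by
    intro q hq hd
    have h4 : q ∈ (DE p e).primeFactors := Nat.mem_primeFactors.2 ⟨hq, hd, h0⟩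
    rw [DE_pf hi hp, mem_image] at h4
    obtain ⟨i, h5, h6⟩ := h4
    exact ⟨i, (mem_filter.1 h5).2, h6⟩
  refine ⟨⟨h0, fun h => ?_, fun q hq h => ?_⟩, ha.1, ha.2, p 0, hp 0, h2, ?_, fun q hq hd hne => ?_⟩
  · obtain ⟨i, -, h5⟩ := hmem 3 Nat.prime_three h
    exact h3 i h5
  · obtain ⟨i, -, rfl⟩ := hmem q hq ((dvd_pow_self q (by norm_num)).trans h)
    rw [hq.pow_dvd_iff_le_factorization h0, fac_at hi hp] at h
    have := ZMod.val_lt (e i)
    omega
  · have h4 : p 0 ∈ (DE p e).primeFactors := by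
      rw [DE_pf hi hp]
      exact mem_image_of_mem _ (mem_filter.2 ⟨mem_univ _, he⟩)
    exact Nat.dvd_of_mem_primeFactors h4
  · obtain ⟨i, -, rfl⟩ := hmem q hq hd
    exact h1 i fun h => hne (by rw [h])

/-- **the criterion** -/
theorem ns_iff (h2 : p 0 % 3 = 2) (h1 : ∀ i, i ≠ 0 → p i % 3 = 1) {e : Fin (r + 1) → ZMod 3}
    (he : e 0 ≠ 0) (ha : Adm (DE p e)) :
    NoSplit (DE p e) ↔ NS e fun i j => lam (p i) (p j) := by
  have hC := DE_cls hi hp h2 h1 he ha
  have hg : NoSplit (DE p e) ↔ GdW (MD (DE p e)) (DE p e).primeFactors :=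
    ⟨gdw_of_nosplit hL hC, nosplit_of_gdw hL hC⟩
  rw [hg, DE_pf hi hp]
  have hinj : ∀ s : Finset (Fin (r + 1)), Set.InjOn p s := fun s a _ b _ h => hi h
  have hw : ∀ j, e j ≠ 0 → wt (MD (DE p e)) (p j) = e j := by
    intro j hj
    have hd : ∀ a : ZMod 3, a ≠ 0 → a ≠ 2 → 1 = a := by decide
    unfold wt
    split_ifs with h
    · exact ((DE_MD hi hp e j).1 h).symm
    · exact hd _ hj fun h' => h ((DE_MD hi hp e j).2 h')
  have key : ∀ (c : ℕ → ZMod 3) (i : Fin (r + 1)),
      ∑ q ∈ (univ.filter fun i => e i ≠ 0).image p, (c q - c (p i)) *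
        (wt (MD (DE p e)) q * lam (p i) q) =
      ∑ j, (c (p j) - c (p i)) * (e j * lam (p i) (p j)) := by
    intro c i
    rw [sum_image (hinj _), sum_filter]
    refine sum_congr rfl fun j _ => ?_
    split_ifs with h
    · rw [hw j h]
    · rw [not_not.1 h, zero_mul, mul_zero]
  constructor
  · intro h c hc i hei
    obtain ⟨c', hc'⟩ : ∃ c' : ℕ → ZMod 3, ∀ i, c' (p i) = c i :=
      ⟨fun q => if hq : ∃ i, p i = q then c hq.choose else 0, fun i => by
        have hex : ∃ j, p j = p i := ⟨i, rfl⟩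
        simp only [dif_pos hex]
        rw [hi hex.choose_spec]⟩
    have h3 := h c' (fun q hq hq1 => by
      obtain ⟨k, hk, rfl⟩ := mem_image.1 hq
      have h0 : k ≠ 0 := by
        rintro rfl
        omega
      rw [key, ← hc k h0 (mem_filter.1 hk).2]
      refine sum_congr rfl fun j _ => ?_
      rw [hc', hc'])
      (p i) (mem_image_of_mem _ (mem_filter.2 ⟨mem_univ _, hei⟩))
      (p 0) (mem_image_of_mem _ (mem_filter.2 ⟨mem_univ _, he⟩))
    rwa [hc', hc'] at h3
  · intro h c hc q hq q' hq'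
    obtain ⟨i, hi1, rfl⟩ := mem_image.1 hq
    obtain ⟨j, hj1, rfl⟩ := mem_image.1 hq'
    have h3 := h (fun k => c (p k)) (fun k hk hek => by
      have h4 := hc (p k) (mem_image_of_mem _ (mem_filter.2 ⟨mem_univ _, hek⟩)) (h1 k hk)
      rw [key] at h4
      exact h4)
    exact (h3 i (mem_filter.1 hi1).2).trans (h3 j (mem_filter.1 hj1).2).symm

end tup

/-- **all twists at once** -/
theorem all_iff {r : ℕ} (m : Fin (r + 1) → Fin (r + 1) → ZMod 3) :
    (∀ e : Fin (r + 1) → ZMod 3, e 0 = 1 → NS e m) ↔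
      (∀ i, i ≠ 0 → m i 0 ≠ 0) ∧ ∀ i j, i ≠ 0 → j ≠ 0 → j ≠ i → m i j = 0 := by
  constructor
  · intro h
    have hs : ∀ i, i ≠ 0 → m i 0 ≠ 0 := by
      intro i h0 hm
      have h1 := h (fun k => if k = 0 ∨ k = i then 1 else 0) (if_pos (Or.inl rfl))
        (fun k => if k = i then 1 else 0) (fun k hk hek => by
          have hki : k = i := by
            by_contra hne
            exact hek (if_neg fun h' => h'.elim hk hne)
          subst hki
          refine sum_eq_zero fun j _ => ?_
          by_cases hj0 : j = 0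
          · subst hj0
            rw [hm, mul_zero, mul_zero]
          · by_cases hjk : j = k
            · subst hjk
              rw [sub_self, zero_mul]
            · beta_reduce
              rw [if_neg (c := j = 0 ∨ j = k) (by tauto), zero_mul, mul_zero]) i
        (by beta_reduce; rw [if_pos (Or.inr rfl)]; decide)
      beta_reduce at h1
      rw [if_pos rfl, if_neg (Ne.symm h0)] at h1
      exact absurd h1 (by decide)
    refine ⟨hs, fun i j h0 hj0 hji => ?_⟩
    -- a pair
    have hdec : ∀ a b u v : ZMod 3, a ≠ 0 → b ≠ 0 → u ≠ 0 →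
        ∃ x y ci cj : ZMod 3, x ≠ 0 ∧ y ≠ 0 ∧ (ci ≠ 0 ∨ cj ≠ 0) ∧
          (0 - ci) * (1 * a) + (cj - ci) * (y * u) = 0 ∧
          (0 - cj) * (1 * b) + (ci - cj) * (x * v) = 0 := by decide
    by_contra hu
    obtain ⟨x, y, ci, cj, hx, hy, hc, e1, e2⟩ := hdec (m i 0) (m j 0) (m i j) (m j i) (hs i h0)
      (hs j hj0) hu
    have h1 := h (fun k => if k = 0 then 1 else if k = i then x else if k = j then y else 0)
      (if_pos rfl) (fun k => if k = i then ci else if k = j then cj else 0) (fun k hk hek => by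
        have hkij : k = i ∨ k = j := by
          by_contra hne
          push Not at hne
          exact hek (by beta_reduce; rw [if_neg hk, if_neg hne.1, if_neg hne.2])
        rcases hkij with rfl | rfl
        · rw [← Finset.sum_subset (Finset.subset_univ ({0, j} : Finset (Fin (r + 1))))]
          · rw [Finset.sum_pair (Ne.symm hj0)]
            simp only [if_pos, if_neg (Ne.symm hk), if_neg (Ne.symm hj0), if_neg hji, if_neg hj0]
            exact e1
          · intro l _ hl
            rw [mem_insert, mem_singleton, not_or] at hl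
            by_cases hlk : l = k
            · rw [hlk, sub_self, zero_mul]
            · simp only [if_neg hl.1, if_neg hlk, if_neg hl.2, zero_mul, mul_zero]
        · rw [← Finset.sum_subset (Finset.subset_univ ({0, i} : Finset (Fin (r + 1))))]
          · rw [Finset.sum_pair (Ne.symm h0)]
            simp only [if_pos, if_neg (Ne.symm hk), if_neg (Ne.symm h0), if_neg hji, if_neg h0]
            exact e2
          · intro l _ hl
            rw [mem_insert, mem_singleton, not_or] at hl
            by_cases hlk : l = k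
            · rw [hlk, sub_self, zero_mul]
            · simp only [if_neg hl.1, if_neg hl.2, if_neg hlk, zero_mul, mul_zero])
    have hi' := h1 i (by beta_reduce; rw [if_neg h0, if_pos rfl]; exact hx)
    have hj' := h1 j (by beta_reduce; rw [if_neg hj0, if_neg hji, if_pos rfl]; exact hy)
    beta_reduce at hi' hj'
    rw [if_pos rfl, if_neg (Ne.symm h0), if_neg (Ne.symm hj0)] at hi'
    rw [if_neg hji, if_pos rfl, if_neg (Ne.symm h0), if_neg (Ne.symm hj0)] at hj'
    rcases hc with hc | hc
    · exact hc hi'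
    · exact hc hj'
  · rintro ⟨ha, hb⟩ e he c hc i hei
    by_cases h0 : i = 0
    · rw [h0]
    have h1 := hc i h0 hei
    rw [Finset.sum_eq_single 0] at h1
    · rw [he, one_mul] at h1
      rcases mul_eq_zero.1 h1 with h2 | h2
      · exact (sub_eq_zero.1 h2).symm
      · exact absurd h2 (ha i h0)
    · intro j _ hj0
      by_cases hji : j = i
      · rw [hji, sub_self, zero_mul]
      · rw [hb i j h0 hj0 hji, mul_zero, mul_zero]
    · exact fun h => absurd (mem_univ _) h

end Pool.Agent.R338.CT
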