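import Pool.Agent.R338.CT.Exp

/-! The joint law of all the twists of a tuple of primes from arbitrary sets. -/

set_option autoImplicit false

open scoped Classical

namespace Pool.Agent.R338.CT

open Finset Pool.Agent.Y703.CX
open Pool.Agent.Y703.CT (Cls NoSplit Base)

/-- all solutions of the system attached to the exponents `1, t` are constant -/
def Rigid {r : ℕ} (t : Fin r → ZMod 3) (m : Fin r → Fin (r + 1) → ZMod 3) : Prop :=
  ∀ c : Fin (r + 1) → ZMod 3, (∀ i : Fin r, t i ≠ 0 →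
    ∑ j, (c j - c i.succ) * ((Fin.cons 1 t : Fin (r + 1) → ZMod 3) j * m i j) = 0) →
      ∀ i : Fin r, t i ≠ 0 → c i.succ = c 0

theorem rigid_iff {r : ℕ} (t : Fin r → ZMod 3) (M : Fin (r + 1) → Fin (r + 1) → ZMod 3) :
    NS (Fin.cons 1 t) M ↔ Rigid t fun i j => M i.succ j := by
  constructor
  · intro h c hc i hi
    refine h c (fun k hk hek => ?_) i.succ (by rwa [Fin.cons_succ])
    obtain ⟨l, rfl⟩ := Fin.exists_succ_eq.2 hk
    rw [Fin.cons_succ] at hek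
    exact hc l hek
  · intro h c hc i hei
    by_cases h0 : i = 0
    · rw [h0]
    obtain ⟨l, rfl⟩ := Fin.exists_succ_eq.2 h0
    rw [Fin.cons_succ] at hei
    exact h c (fun k hk => hc k.succ (Fin.succ_ne_zero k) (by rwa [Fin.cons_succ])) l hei

theorem all_rigid {r : ℕ} (m : Fin r → Fin (r + 1) → ZMod 3) :
    (∀ t, Rigid t m) ↔ (∀ i, m i 0 ≠ 0) ∧ ∀ i j : Fin r, j ≠ i → m i j.succ = 0 := by
  set M : Fin (r + 1) → Fin (r + 1) → ZMod 3 := Fin.cons 0 m with hM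
  have hMs : ∀ i j, M (Fin.succ i) j = m i j := fun i j => by rw [hM, Fin.cons_succ]
  have e1 : (∀ t, Rigid t m) ↔ ∀ e : Fin (r + 1) → ZMod 3, e 0 = 1 → NS e M := by
    have e2 : ∀ t, Rigid t m ↔ NS (Fin.cons 1 t) M := by
      intro t
      rw [rigid_iff]
      have : (fun i j => M (Fin.succ i) j) = m := by
        funext i j
        exact hMs i j
      rw [this]
    constructor
    · intro h e he
      have h1 := (e2 (Fin.tail e)).1 (h _)
      rwa [← he, Fin.cons_self_tail] at h1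
    · intro h t
      exact (e2 t).2 (h _ (Fin.cons_zero _ _))
  rw [e1, all_iff]
  constructor
  · rintro ⟨h1, h2⟩
    refine ⟨fun i => ?_, fun i j hij => ?_⟩
    · rw [← hMs]
      exact h1 _ (Fin.succ_ne_zero i)
    · rw [← hMs]
      exact h2 _ _ (Fin.succ_ne_zero i) (Fin.succ_ne_zero j) fun h => hij (Fin.succ_injective _ h)
  · rintro ⟨h1, h2⟩
    refine ⟨fun i hi => ?_, fun i j hi hj hij => ?_⟩
    · obtain ⟨l, rfl⟩ := Fin.exists_succ_eq.2 hi
      rw [hMs]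
      exact h1 l
    · obtain ⟨l, rfl⟩ := Fin.exists_succ_eq.2 hi
      obtain ⟨k, rfl⟩ := Fin.exists_succ_eq.2 hj
      rw [hMs]
      exact h2 l k fun h => hij (by rw [h])

/-- the matrix of a function on the pairs -/
noncomputable def mx {r : ℕ} (α : prs (J r) → ZMod 3) : Fin r → Fin (r + 1) → ZMod 3 :=
  fun i j => Pool.Agent.Y703.CX.ext α i.succ j

theorem mx_inj {r : ℕ} : Function.Injective (mx (r := r)) := by
  intro α β h
  funext ⟨⟨k, l⟩, hkl⟩
  have h1 := (mem_prs k l).1 hkl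
  obtain ⟨i, rfl⟩ := Fin.exists_succ_eq.2 h1.1
  have h2 := congrFun (congrFun h i) l
  unfold mx Pool.Agent.Y703.CX.ext at h2
  rwa [dif_pos hkl, dif_pos hkl] at h2

theorem mx_image {r : ℕ} (Q : (Fin r → Fin (r + 1) → ZMod 3) → Prop) :
    mx '' {α | Q (mx α)} = {m | (∀ i, m i i.succ = 0) ∧ Q m} := by
  ext m
  constructor
  · rintro ⟨α, h, rfl⟩
    refine ⟨fun i => ?_, h⟩
    unfold mx Pool.Agent.Y703.CX.ext
    exact dif_neg fun h' => ((mem_prs _ _).1 h').2 rfl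
  · rintro ⟨h0, h⟩
    have e : mx (fun e : prs (J r) => m (e.1.1.pred ((mem_prs _ _).1 e.2).1) e.1.2) = m := by
      funext i j
      unfold mx Pool.Agent.Y703.CX.ext
      split_ifs with h'
      · simp only [Fin.pred_succ]
      · rw [mem_prs, not_and] at h'
        have h2 := not_not.1 (h' (Fin.succ_ne_zero i))
        rw [h2, h0]
    refine ⟨_, ?_, e⟩
    show Q (mx _)
    rwa [e]

theorem mx_card {r : ℕ} (Q : (Fin r → Fin (r + 1) → ZMod 3) → Prop) :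
    {α : prs (J r) → ZMod 3 | Q (mx α)}.ncard = {m | (∀ i, m i i.succ = 0) ∧ Q m}.ncard := by
  rw [← mx_image, Set.ncard_image_of_injective _ mx_inj]

theorem all_card (r : ℕ) :
    {m : Fin r → Fin (r + 1) → ZMod 3 | (∀ i, m i i.succ = 0) ∧ ∀ t, Rigid t m}.ncard = 2 ^ r := by
  have e1 : {m : Fin r → Fin (r + 1) → ZMod 3 | (∀ i, m i i.succ = 0) ∧ ∀ t, Rigid t m} =
      (fun (f : Fin r → {x : ZMod 3 // x ≠ 0}) i => (Fin.cons (f i : ZMod 3) 0 :
        Fin (r + 1) → ZMod 3)) '' Set.univ := by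
    ext m
    simp only [Set.mem_ofPred_eq, Set.image_univ, Set.mem_range, all_rigid]
    constructor
    · rintro ⟨h0, h1, h2⟩
      refine ⟨fun i => ⟨m i 0, h1 i⟩, ?_⟩
      funext i j
      refine Fin.cases ?_ (fun j => ?_) j
      · rw [Fin.cons_zero]
      · rw [Fin.cons_succ]
        by_cases hj : j = i
        · rw [hj, h0]
          rfl
        · rw [h2 i j hj]
          rfl
    · rintro ⟨f, rfl⟩
      refine ⟨fun i => ?_, fun i => ?_, fun i j _ => ?_⟩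
      · beta_reduce
        rw [Fin.cons_succ]
        rfl
      · beta_reduce
        rw [Fin.cons_zero]
        exact (f i).2
      · beta_reduce
        rw [Fin.cons_succ]
        rfl
  have h2 : Nat.card {x : ZMod 3 // x ≠ 0} = 2 := by
    rw [Nat.card_eq_fintype_card]
    decide
  rw [e1, Set.ncard_image_of_injective, Set.ncard_univ, Nat.card_fun, h2, Nat.card_fin]
  intro f g h
  funext i
  apply Subtype.ext
  have h1 := congrFun (congrFun h i) 0
  simpa using h1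

/-- the twist -/
def tw {r : ℕ} (p : Fin (r + 1) → ℕ) (t : Fin r → ZMod 3) : ℕ :=
  p 0 * ∏ i : Fin r, p i.succ ^ (t i).val

theorem tw_eq {r : ℕ} (p : Fin (r + 1) → ℕ) (t : Fin r → ZMod 3) :
    tw p t = DE p (Fin.cons 1 t) := by
  unfold tw DE
  rw [Fin.prod_univ_succ]
  congr 1
  rw [Fin.cons_zero]
  exact (pow_one _).symm

theorem DE_mod {r : ℕ} {p : Fin (r + 1) → ℕ} (h9 : ∀ i, i ≠ 0 → p i % 9 = 1)
    (e : Fin (r + 1) → ZMod 3) : DE p e % 9 = p 0 ^ (e 0).val % 9 := by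
  unfold DE
  rw [Fin.prod_univ_succ, Nat.mul_mod]
  have h : (∏ i : Fin r, p i.succ ^ (e i.succ).val) % 9 = 1 := by
    have hc : ∀ i : Fin r, ((p i.succ : ℕ) : ZMod 9) = 1 := by
      intro i
      have h2 := (ZMod.natCast_eq_natCast_iff' (p i.succ) 1 9).2 (by rw [h9 _ (Fin.succ_ne_zero i)])
      rw [h2, Nat.cast_one]
    have h1 : ((∏ i : Fin r, p i.succ ^ (e i.succ).val : ℕ) : ZMod 9) = ((1 : ℕ) : ZMod 9) := by
      rw [Nat.cast_prod, Nat.cast_one]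
      refine Finset.prod_eq_one fun i _ => ?_
      rw [Nat.cast_pow, hc, one_pow]
    exact (ZMod.natCast_eq_natCast_iff' _ 1 9).1 h1
  rw [h, mul_one, Nat.mod_mod]

/-- the conditions modulo `9` -/
structure Nine {r : ℕ} (P : Fin (r + 1) → Finset ℕ) : Prop where
  first : ∀ p ∈ P 0, p % 9 = 2 ∨ p % 9 = 5
  others : ∀ i, i ≠ 0 → ∀ p ∈ P i, p % 9 = 1

theorem adm_DE {r : ℕ} {P : Fin (r + 1) → Finset ℕ} (h : Nine P) {p : Fin (r + 1) → ℕ}
    (hp : ∀ i, p i ∈ P i) {e : Fin (r + 1) → ZMod 3} (he : e 0 ≠ 0) : Adm (DE p e) := by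
  have h1 := DE_mod (fun i hi => h.others i hi _ (hp i)) e
  have h2 := h.first _ (hp 0)
  have h3 : ∀ a : ZMod 3, a ≠ 0 → a.val = 1 ∨ a.val = 2 := by decide
  unfold Adm
  rw [h1]
  rcases h3 _ he with h4 | h4 <;> rw [h4] <;> rcases h2 with h2 | h2 <;>
    rw [Nat.pow_mod, h2] <;> decide

/-- the criterion for one twist -/
theorem tw_iff {r : ℕ} {P : Fin (r + 1) → Finset ℕ} {X : Fin (r + 1) → ℕ} {z : ℕ}
    (hS : Sets P X z) (h9 : Nine P) {p : Fin (r + 1) → ℕ} (hp : ∀ i, p i ∈ P i)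
    (t : Fin r → ZMod 3) :
    Cls (tw p t) ∧ (NoSplit (tw p t) ↔ Rigid t (mx fun e => lam (p e.1.1) (p e.1.2))) := by
  have hinj := hS.inj hp
  have hpr : ∀ i, (p i).Prime := fun i => (hS.mem i _ (hp i)).1
  have h2 := hS.two _ (hp 0)
  have h1 : ∀ i, i ≠ 0 → p i % 3 = 1 := fun i hi => hS.m3 i hi _ (hp i)
  have he : (Fin.cons 1 t : Fin (r + 1) → ZMod 3) 0 ≠ 0 := by
    rw [Fin.cons_zero]
    decide
  have ha := adm_DE h9 hp he
  rw [tw_eq]
  refine ⟨DE_cls hinj hpr h2 h1 he ha, ?_⟩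
  rw [ns_iff hinj hpr h2 h1 he ha]
  have e1 := NS_congr (Fin.cons 1 t) (m := fun i j => lam (p i) (p j))
    (n := Pool.Agent.Y703.CX.ext fun e : prs (J r) => lam (p e.1.1) (p e.1.2)) (fun i j hi hj => by
      unfold Pool.Agent.Y703.CX.ext
      rw [dif_pos ((mem_prs i j).2 ⟨hi, hj⟩)])
  rw [e1, rigid_iff]
  exact Iff.rfl

/-- **the joint law** -/
theorem joint : ∃ C : ℝ, 1 ≤ C ∧ ∀ (r : ℕ) (P : Fin (r + 1) → Finset ℕ) (X : Fin (r + 1) → ℕ)
    (z : ℕ), Sets P X z → Nine P → ∀ V : Set (Fin r → ZMod 3),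
    |(({p : Fin (r + 1) → ℕ | (∀ i, p i ∈ P i) ∧ ∀ t, (NoSplit (tw p t) ↔ t ∈ V)}.ncard : ℕ) : ℝ) -
      (({m : Fin r → Fin (r + 1) → ZMod 3 | (∀ i, m i i.succ = 0) ∧
        ∀ t, (Rigid t m ↔ t ∈ V)}.ncard : ℕ) : ℝ) / 3 ^ (r * r) * ∏ j, ((P j).card : ℝ)| ≤
    3 ^ (r * r) * (C * (z : ℝ) ^ (-(1 / 12 : ℝ)) * ∏ j, (X j : ℝ)) := by
  obtain ⟨C, hC1, hC⟩ := law
  refine ⟨C, hC1, fun r P X z hS h9 V => ?_⟩
  have h1 := hC r P X z hS fun α => ∀ t, (Rigid t (mx α) ↔ t ∈ V)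
  rw [mx_card fun m => ∀ t, (Rigid t m ↔ t ∈ V)] at h1
  have e1 : {p : Fin (r + 1) → ℕ | (∀ i, p i ∈ P i) ∧ ∀ t, (NoSplit (tw p t) ↔ t ∈ V)} =
      {p : Fin (r + 1) → ℕ | (∀ i, p i ∈ P i) ∧
        ∀ t, (Rigid t (mx fun e => lam (p e.1.1) (p e.1.2)) ↔ t ∈ V)} := by
    ext p
    simp only [Set.mem_ofPred_eq]
    refine and_congr_right fun hp => forall_congr' fun t => ?_
    rw [(tw_iff hS h9 hp t).2]
  rw [e1]
  exact h1

end Pool.Agent.R338.CT
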