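import Mathlib
import Pool.Agent.Y703.CX.Stm

/-! The number of systems `∑ⱼ (cⱼ - cᵢ) αᵢⱼ = 0` (`i ≠ 0`) over `ℤ/3` with constant solutions only. -/

set_option autoImplicit false

open scoped Classical

namespace Pool.Agent.R338.CT

open Finset Pool.Agent.Y703.CX

/-- the indices different from `0` -/
noncomputable def J (r : ℕ) : Finset (Fin (r + 1)) := univ.filter fun i => i ≠ 0

theorem mem_J {r : ℕ} (i : Fin (r + 1)) : i ∈ J r ↔ i ≠ 0 := by simp [J]

theorem mem_prs {r : ℕ} (i j : Fin (r + 1)) : (i, j) ∈ prs (J r) ↔ i ≠ 0 ∧ j ≠ i := by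
  simp [prs, mem_J]

theorem card_prs (r : ℕ) : (prs (J r)).card = r * r := by
  have h : prs (J r) = (univ : Finset (Fin r × Fin r)).image
      fun e => (e.1.succ, e.1.succ.succAbove e.2) := by
    ext ⟨i, j⟩
    rw [mem_prs, mem_image]
    constructor
    · rintro ⟨h1, h2⟩
      obtain ⟨k, rfl⟩ := Fin.exists_succ_eq.2 h1
      obtain ⟨l, rfl⟩ := Fin.exists_succAbove_eq h2
      exact ⟨(k, l), mem_univ _, rfl⟩
    · rintro ⟨⟨k, l⟩, -, h1⟩
      rw [Prod.mk.injEq] at h1
      obtain ⟨rfl, rfl⟩ := h1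
      exact ⟨Fin.succ_ne_zero k, Fin.succAbove_ne _ _⟩
  rw [h, card_image_of_injective, card_univ, Fintype.card_prod, Fintype.card_fin]
  rintro ⟨k, l⟩ ⟨k', l'⟩ h1
  simp only [Prod.mk.injEq, Fin.succ_inj] at h1
  obtain ⟨rfl, h2⟩ := h1
  rw [Fin.succAbove_right_injective h2]

/-- all solutions are constant -/
def G {r : ℕ} (β : Fin (r + 1) → Fin (r + 1) → ZMod 3) : Prop :=
  ∀ c : Fin (r + 1) → ZMod 3, (∀ i, i ≠ 0 → ∑ j, (c j - c i) * β i j = 0) → ∀ i j, c i = c j

/-- the coefficients given by a matrix -/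
def Bm {r : ℕ} (M : Matrix (Fin r) (Fin r) (ZMod 3)) : Fin (r + 1) → Fin (r + 1) → ZMod 3 :=
  fun i j => Fin.cases 0 (fun k => Fin.cases (-∑ l, M k l) (fun l => if l = k then 0 else M k l) j) i

theorem Bm_zero {r : ℕ} (M : Matrix (Fin r) (Fin r) (ZMod 3)) (k : Fin r) :
    Bm M k.succ 0 = -∑ l, M k l := rfl

theorem Bm_succ {r : ℕ} (M : Matrix (Fin r) (Fin r) (ZMod 3)) (k l : Fin r) :
    Bm M k.succ l.succ = if l = k then 0 else M k l := rfl

theorem G_iff {r : ℕ} (M : Matrix (Fin r) (Fin r) (ZMod 3)) : G (Bm M) ↔ IsUnit M := by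
  have key : ∀ (c : Fin (r + 1) → ZMod 3) (k : Fin r),
      ∑ j, (c j - c k.succ) * Bm M k.succ j = M.mulVec (fun l => c l.succ - c 0) k := by
    intro c k
    rw [Fin.sum_univ_succ, Bm_zero]
    have h1 : ∀ l : Fin r, (c l.succ - c k.succ) * Bm M k.succ l.succ =
        (c l.succ - c k.succ) * M k l := by
      intro l
      rw [Bm_succ]
      split_ifs with h
      · rw [h, sub_self, zero_mul, zero_mul]
      · rfl
    rw [sum_congr rfl fun l _ => h1 l]
    unfold Matrix.mulVec dotProduct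
    rw [mul_neg, mul_sum, ← sum_neg_distrib, ← sum_add_distrib]
    refine sum_congr rfl fun l _ => ?_
    ring
  rw [← Matrix.mulVec_injective_iff_isUnit]
  constructor
  · intro h x y hxy
    have h0 : M.mulVec (x - y) = 0 := by
      rw [Matrix.mulVec_sub]
      exact sub_eq_zero.2 hxy
    have h1 := h (Fin.cases 0 (x - y)) ?_
    · funext l
      have h2 := h1 l.succ 0
      simp only [Fin.cases_succ, Fin.cases_zero] at h2
      exact sub_eq_zero.1 h2
    · intro i hi
      obtain ⟨k, rfl⟩ := Fin.exists_succ_eq.2 hi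
      rw [key]
      simp only [Fin.cases_succ, Fin.cases_zero, sub_zero]
      exact congrFun h0 k
  · intro h c hc
    have h0 : M.mulVec (fun l => c l.succ - c 0) = M.mulVec 0 := by
      rw [Matrix.mulVec_zero]
      funext k
      rw [← key]
      exact hc _ (Fin.succ_ne_zero k)
    have h1 := h h0
    have h2 : ∀ i, c i = c 0 := by
      intro i
      refine Fin.cases rfl (fun l => ?_) i
      exact sub_eq_zero.1 (congrFun h1 l)
    intro i j
    rw [h2 i, h2 j]

/-- the restriction -/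
def Ph {r : ℕ} (M : Matrix (Fin r) (Fin r) (ZMod 3)) : prs (J r) → ZMod 3 :=
  fun e => Bm M e.1.1 e.1.2

theorem ext_Ph {r : ℕ} (M : Matrix (Fin r) (Fin r) (ZMod 3)) :
    Pool.Agent.Y703.CX.ext (Ph M) = Bm M := by
  funext i j
  unfold Pool.Agent.Y703.CX.ext
  split_ifs with h
  · rfl
  · rw [mem_prs] at h
    refine Fin.cases (fun _ => rfl) (fun k => ?_) i h
    intro h
    have h1 : j = k.succ := by
      by_contra h2
      exact h ⟨Fin.succ_ne_zero k, h2⟩
    rw [h1, Bm_succ, if_pos rfl]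

theorem Ph_inj {r : ℕ} : Function.Injective (Ph (r := r)) := by
  intro M N h
  have h1 : Bm M = Bm N := by rw [← ext_Ph, ← ext_Ph, h]
  have h2 : ∀ k l : Fin r, l ≠ k → M k l = N k l := by
    intro k l hl
    have := congrFun (congrFun h1 k.succ) l.succ
    rwa [Bm_succ, Bm_succ, if_neg hl, if_neg hl] at this
  ext k l
  by_cases hl : l = k
  · subst hl
    have h3 := congrFun (congrFun h1 l.succ) 0
    rw [Bm_zero, Bm_zero, neg_inj, ← add_sum_erase _ _ (mem_univ l),
      ← add_sum_erase univ (fun m => N l m) (mem_univ l)] at h3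
    rw [sum_congr rfl fun m hm => h2 l m (mem_erase.1 hm).1] at h3
    exact add_right_cancel h3
  · exact h2 k l hl

theorem Ph_bij {r : ℕ} : Function.Bijective (Ph (r := r)) := by
  rw [Fintype.bijective_iff_injective_and_card]
  refine ⟨Ph_inj, ?_⟩
  have h1 : Fintype.card (Matrix (Fin r) (Fin r) (ZMod 3)) = 3 ^ (r * r) := by
    have : Fintype.card (Matrix (Fin r) (Fin r) (ZMod 3)) =
        Fintype.card (Fin r → Fin r → ZMod 3) := by
      exact Fintype.card_congr (Equiv.refl _)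
    rw [this, Fintype.card_fun, Fintype.card_fun, ZMod.card, Fintype.card_fin, pow_mul]
  rw [h1, Fintype.card_fun, ZMod.card, Fintype.card_coe, card_prs]

/-- the number of the good systems -/
theorem count (r : ℕ) : {α : prs (J r) → ZMod 3 | G (Pool.Agent.Y703.CX.ext α)}.ncard =
    ∏ i : Fin r, (3 ^ r - 3 ^ (i : ℕ)) := by
  have h1 : {α : prs (J r) → ZMod 3 | G (Pool.Agent.Y703.CX.ext α)} =
      Ph '' {M | IsUnit M} := by
    ext α
    obtain ⟨M, rfl⟩ := Ph_bij.2 α
    simp only [Set.mem_ofPred_eq, Ph_inj.mem_set_image]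
    rw [ext_Ph, G_iff]
  rw [h1, Set.ncard_image_of_injective _ Ph_inj]
  have : Fact (Nat.Prime 3) := ⟨Nat.prime_three⟩
  have h2 := Matrix.card_GL_field (𝔽 := ZMod 3) r
  rw [ZMod.card] at h2
  rw [← h2]
  have h3 : {M : Matrix (Fin r) (Fin r) (ZMod 3) | IsUnit M} =
      Set.range (fun g : Matrix.GeneralLinearGroup (Fin r) (ZMod 3) => (g : Matrix _ _ _)) := by
    ext M
    rfl
  rw [h3, ← Set.image_univ, Set.ncard_image_of_injective _ Units.val_injective, Set.ncard_univ]

/-- the proportion of the good systems -/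
noncomputable def pr (r : ℕ) : ℝ := ∏ i ∈ range r, (1 - 1 / (3 : ℝ) ^ (i + 1))

theorem count_pr (r : ℕ) :
    (({α : prs (J r) → ZMod 3 | G (Pool.Agent.Y703.CX.ext α)}.ncard : ℕ) : ℝ) / 3 ^ (r * r) = pr r := by
  rw [count]
  have h1 : ((∏ i : Fin r, (3 ^ r - 3 ^ (i : ℕ)) : ℕ) : ℝ) =
      ∏ i ∈ range r, ((3 : ℝ) ^ r - 3 ^ i) := by
    rw [Finset.prod_range]
    rw [Nat.cast_prod]
    refine prod_congr rfl fun i _ => ?_
    rw [Nat.cast_sub (Nat.pow_le_pow_right (by norm_num) i.2.le)]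
    push_cast
    rfl
  rw [h1]
  have h2 : (3 : ℝ) ^ (r * r) = ∏ i ∈ range r, (3 : ℝ) ^ r := by
    rw [prod_const, card_range, ← pow_mul]
  rw [h2, ← prod_div_distrib]
  unfold pr
  rw [← prod_range_reflect]
  refine prod_congr rfl fun i hi => ?_
  have hi' := mem_range.1 hi
  have h3 : (3 : ℝ) ^ r = 3 ^ (r - 1 - i) * 3 ^ (i + 1) := by
    rw [← pow_add]
    congr 1
    omega
  have h4 : (3 : ℝ) ^ (r - 1 - i) ≠ 0 := by positivity
  have h5 : (3 : ℝ) ^ (i + 1) ≠ 0 := by positivity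
  rw [h3]
  field_simp

end Pool.Agent.R338.CT
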