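import Pool.Agent.R338.CU.Law
import Pool.Agent.R338.CT.Lap
import Pool.Agent.Y779.CX.BIL2

/-! Equidistribution of the cubic residue symbols of tuples of primes from arbitrary sets, one prime
`≡ 2` modulo `3`. Bilinear sums: helper261, helper779; equidistribution: helper419. -/

set_option autoImplicit false

open scoped Classical

namespace Pool.Agent.R338.CT

open Finset Pool.Agent.Y703.CX
open Pool.Agent.R338.CU (hL)

/-- disjoint sets of primes up to `X i`, those of `P 0` are `2` modulo `3`, the others `1` -/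
structure Sets {r : ℕ} (P : Fin (r + 1) → Finset ℕ) (X : Fin (r + 1) → ℕ) (z : ℕ) : Prop where
  one : 1 ≤ z
  le : ∀ i, z ≤ X i
  two : ∀ p ∈ P 0, p % 3 = 2
  m3 : ∀ i, i ≠ 0 → ∀ p ∈ P i, p % 3 = 1
  mem : ∀ i, ∀ p ∈ P i, p.Prime ∧ p ≤ X i
  dis : ∀ i l, i ≠ l → Disjoint (P i) (P l)

theorem root {C z A N : ℝ} (hC : 0 < C) (hz : 0 < z) (hA : 0 ≤ A)
    (h : N ^ 12 * z ≤ C * A ^ 12) :
    N ≤ C ^ (1 / 12 : ℝ) * z ^ (-(1 / 12 : ℝ)) * A := by
  have h2 : N ^ 12 ≤ C * z⁻¹ * A ^ 12 := by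
    rw [← div_eq_mul_inv, div_mul_eq_mul_div, le_div_iff₀ hz]
    exact h
  have h3 : (C ^ (1 / 12 : ℝ) * z ^ (-(1 / 12 : ℝ)) * A) ^ 12 = C * z⁻¹ * A ^ 12 := by
    rw [mul_pow, mul_pow, ← Real.rpow_natCast (C ^ (1 / 12 : ℝ)) 12,
      ← Real.rpow_natCast (z ^ (-(1 / 12 : ℝ))) 12, ← Real.rpow_mul hC.le,
      ← Real.rpow_mul hz.le]
    norm_num
    left
    rw [Real.rpow_neg_one]
    exact Or.inl rfl
  rw [← h3] at h2
  exact le_of_pow_le_pow_left₀ (by norm_num) (by positivity) h2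

theorem HB_of : ∃ C : ℝ, 1 ≤ C ∧ ∀ (r : ℕ) (P : Fin (r + 1) → Finset ℕ) (X : Fin (r + 1) → ℕ)
    (z : ℕ), Sets P X z → HB (J r) P X (C * (z : ℝ) ^ (-(1 / 12 : ℝ))) := by
  obtain ⟨C1, hC1, h1⟩ := Pool.Agent.Y261.CX.t_BIL1 hL
  obtain ⟨C2, hC2, h2⟩ := Pool.Agent.Y779.CX.t_BIL2 hL
  have hM1 : (1 : ℝ) ≤ max C1 C2 := hC1.trans (le_max_left _ _)
  have hM0 : (0 : ℝ) < max C1 C2 := by linarith
  refine ⟨(max C1 C2) ^ (1 / 12 : ℝ), Real.one_le_rpow hM1 (by norm_num), ?_⟩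
  intro r P X z hS i l hil a b c d hab ha hb hc hd
  have hz0 : (0 : ℝ) < z := by exact_mod_cast hS.one
  refine root hM0 hz0 (by positivity) ?_
  have hX12 : (0 : ℝ) ≤ ((X i : ℝ) * X l) ^ 12 := by positivity
  by_cases hi : i = 0
  · -- the prime `≡ 2` comes first
    have ha0 : a = 0 := ha (by rw [mem_J]; exact fun h => h hi)
    have hl : l ≠ 0 := fun h => hil (hi.trans h.symm)
    have hb0 : b ≠ 0 := by
      rcases hab with h | h
      · exact absurd ha0 h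
      · exact h
    have h3 := h2 (P l) (P i) (X l) (X i) z d c b
      (fun p hp => ⟨(hS.mem l p hp).1, hS.m3 l hl p hp, (hS.mem l p hp).2⟩)
      (fun p hp => ⟨(hS.mem i p hp).1, hS.two p (hi ▸ hp), (hS.mem i p hp).2⟩)
      hb0 hS.one (hS.le l) (hS.le i) hd hc
    rw [sum_comm] at h3
    have e : ∑ x ∈ P i, ∑ y ∈ P l, c x * d y * Pool.Agent.Y699.E.ez (a * lam x y + b * lam y x) =
        ∑ y ∈ P i, ∑ x ∈ P l, d x * c y * Pool.Agent.Y699.E.ez (b * lam x y) := by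
      refine sum_congr rfl fun x _ => sum_congr rfl fun y _ => ?_
      rw [ha0, zero_mul, zero_add, mul_comm (c x)]
    rw [e]
    refine h3.trans ?_
    rw [mul_comm (X l : ℝ)]
    exact mul_le_mul_of_nonneg_right (le_max_right _ _) hX12
  · by_cases hl : l = 0
    · have hb0 : b = 0 := hb (by rw [mem_J]; exact fun h => h hl)
      have ha0 : a ≠ 0 := by
        rcases hab with h | h
        · exact h
        · exact absurd hb0 h
      have h3 := h2 (P i) (P l) (X i) (X l) z c d a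
        (fun p hp => ⟨(hS.mem i p hp).1, hS.m3 i hi p hp, (hS.mem i p hp).2⟩)
        (fun p hp => ⟨(hS.mem l p hp).1, hS.two p (hl ▸ hp), (hS.mem l p hp).2⟩)
        ha0 hS.one (hS.le i) (hS.le l) hc hd
      have e : ∑ x ∈ P i, ∑ y ∈ P l, c x * d y * Pool.Agent.Y699.E.ez (a * lam x y + b * lam y x) =
          ∑ x ∈ P i, ∑ y ∈ P l, c x * d y * Pool.Agent.Y699.E.ez (a * lam x y) := by
        refine sum_congr rfl fun x _ => sum_congr rfl fun y _ => ?_
        rw [hb0, zero_mul, add_zero]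
      rw [e]
      exact h3.trans (mul_le_mul_of_nonneg_right (le_max_right _ _) hX12)
    · have h3 := h1 (P i) (P l) (X i) (X l) z c d a b
        (fun p hp => ⟨(hS.mem i p hp).1, hS.m3 i hi p hp, (hS.mem i p hp).2⟩)
        (fun p hp => ⟨(hS.mem l p hp).1, hS.m3 l hl p hp, (hS.mem l p hp).2⟩)
        (hS.dis i l hil) hab hS.one (hS.le i) (hS.le l) hc hd
      exact h3.trans (mul_le_mul_of_nonneg_right (le_max_left _ _) hX12)

/-- **the law** -/
theorem law : ∃ C : ℝ, 1 ≤ C ∧ ∀ (r : ℕ) (P : Fin (r + 1) → Finset ℕ) (X : Fin (r + 1) → ℕ)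
    (z : ℕ), Sets P X z → ∀ Q : (prs (J r) → ZMod 3) → Prop,
    |(({p : Fin (r + 1) → ℕ | (∀ i, p i ∈ P i) ∧ Q fun e => lam (p e.1.1) (p e.1.2)}.ncard : ℕ) : ℝ) -
      (({α | Q α}.ncard : ℕ) : ℝ) / 3 ^ (r * r) * ∏ j, ((P j).card : ℝ)| ≤
    3 ^ (r * r) * (C * (z : ℝ) ^ (-(1 / 12 : ℝ)) * ∏ j, (X j : ℝ)) := by
  obtain ⟨C, hC1, hC⟩ := HB_of
  refine ⟨C, hC1, fun r P X z hS Q => ?_⟩
  have h1 := Pool.Agent.Y419.CX.t_EQ (Fin (r + 1)) (J r) P X (C * (z : ℝ) ^ (-(1 / 12 : ℝ)))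
    (by positivity) (fun i => ?_) (hC r P X z hS) Q
  · rw [card_prs] at h1
    have hN : ∀ (i1 : Fintype (prs (J r) → ZMod 3)) (d : DecidablePred Q),
        (@filter _ Q d (@univ _ i1)).card = {α | Q α}.ncard := by
      intro i1 d
      rw [← Set.ncard_coe_finset]
      congr 1
      exact Set.ext fun α => by simp
    have hM : ∀ (d1 : DecidableEq (Fin (r + 1)))
        (d2 : DecidablePred fun p : Fin (r + 1) → ℕ => Q fun e => lam (p e.1.1) (p e.1.2)),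
        (@filter _ (fun p : Fin (r + 1) → ℕ => Q fun e => lam (p e.1.1) (p e.1.2)) d2
          (@Fintype.piFinset _ d1 _ _ P)).card =
        {p : Fin (r + 1) → ℕ | (∀ i, p i ∈ P i) ∧ Q fun e => lam (p e.1.1) (p e.1.2)}.ncard := by
      intro d1 d2
      rw [← Set.ncard_coe_finset]
      congr 1
      exact Set.ext fun α => by simp
    rw [hN, hM] at h1
    exact h1
  · have h1 : P i ⊆ Icc 1 (X i) := fun p hp => by
      obtain ⟨h1, h3⟩ := hS.mem i p hp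
      exact mem_Icc.2 ⟨h1.one_lt.le, h3⟩
    have := card_le_card h1
    simpa using this

end Pool.Agent.R338.CT
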