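import Pool.Agent.R338.CT.Joint

/-! The tuples all of whose twists do not split. -/

set_option autoImplicit false

open scoped Classical

namespace Pool.Agent.R338.CT

open Finset Pool.Agent.Y703.CX
open Pool.Agent.R338.CU (hL)
open Pool.Agent.Y703.CT (Cls NoSplit Base)

/-- `p 0` is not a cube modulo the other primes, which are cubes modulo each other -/
def Linked {r : ℕ} (p : Fin (r + 1) → ℕ) : Prop :=
  (∀ i, i ≠ 0 → ¬ ∃ x : ℤ, (p i : ℤ) ∣ (p 0 : ℤ) - x ^ 3) ∧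
    ∀ i j, i ≠ 0 → j ≠ 0 → j ≠ i → ∃ x : ℤ, (p i : ℤ) ∣ (p j : ℤ) - x ^ 3

section tup

variable {r : ℕ} {P : Fin (r + 1) → Finset ℕ} {X : Fin (r + 1) → ℕ} {z : ℕ}
  (hS : Sets P X z) {p : Fin (r + 1) → ℕ} (hp : ∀ i, p i ∈ P i)

include hS hp

theorem cube_iff {i j : Fin (r + 1)} (hi : i ≠ 0) (hj : j ≠ i) :
    lam (p i) (p j) = 0 ↔ ∃ x : ℤ, (p i : ℤ) ∣ (p j : ℤ) - x ^ 3 := by
  have hpr : ∀ i, (p i).Prime := fun i => (hS.mem i _ (hp i)).1
  refine hL.cube (p i) (p j) (hpr i) (hS.m3 i hi _ (hp i)) fun h => hj ?_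
  exact (hS.inj hp ((Nat.prime_dvd_prime_iff_eq (hpr i) (hpr j)).1 h)).symm

theorem linked_lam : Linked p ↔ (∀ i, i ≠ 0 → lam (p i) (p 0) ≠ 0) ∧
    ∀ i j, i ≠ 0 → j ≠ 0 → j ≠ i → lam (p i) (p j) = 0 := by
  unfold Linked
  refine and_congr (forall_congr' fun i => forall_congr' fun hi => ?_)
    (forall_congr' fun i => forall_congr' fun j => forall_congr' fun hi => forall_congr' fun _ =>
      forall_congr' fun hij => ?_)
  · rw [← cube_iff hS hp hi (Ne.symm hi)]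
  · rw [cube_iff hS hp hi hij]

theorem all_nosplit_iff (h9 : Nine P) : (∀ t, NoSplit (tw p t)) ↔ Linked p := by
  rw [linked_lam hS hp]
  refine Iff.trans ?_ (all_iff fun i j => lam (p i) (p j))
  constructor
  · intro h e he
    have h1 := h (Fin.tail e)
    have e1 : (Fin.cons 1 (Fin.tail e) : Fin (r + 1) → ZMod 3) = e := by
      rw [← he, Fin.cons_self_tail]
    rw [tw_eq, e1] at h1
    have he' : e 0 ≠ 0 := by rw [he]; decide
    exact (ns_iff (hS.inj hp) (fun i => (hS.mem i _ (hp i)).1) (hS.two _ (hp 0))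
      (fun i hi => hS.m3 i hi _ (hp i)) he' (adm_DE h9 hp he')).1 h1
  · intro h t
    rw [tw_eq]
    have he' : (Fin.cons 1 t : Fin (r + 1) → ZMod 3) 0 ≠ 0 := by
      rw [Fin.cons_zero]
      decide
    exact (ns_iff (hS.inj hp) (fun i => (hS.mem i _ (hp i)).1) (hS.two _ (hp 0))
      (fun i hi => hS.m3 i hi _ (hp i)) he' (adm_DE h9 hp he')).2 (h _ (Fin.cons_zero _ _))

/-- if the tuple is linked then no product with `e 0 ≠ 0` splits -/
theorem nosplit_DE (h9 : Nine P) (hl : Linked p) {e : Fin (r + 1) → ZMod 3} (he : e 0 ≠ 0) :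
    Cls (DE p e) ∧ NoSplit (DE p e) := by
  have hinj := hS.inj hp
  have hpr : ∀ i, (p i).Prime := fun i => (hS.mem i _ (hp i)).1
  have h2 := hS.two _ (hp 0)
  have h1 : ∀ i, i ≠ 0 → p i % 3 = 1 := fun i hi => hS.m3 i hi _ (hp i)
  have ha := adm_DE h9 hp he
  refine ⟨DE_cls hinj hpr h2 h1 he ha, (ns_iff hinj hpr h2 h1 he ha).2 ?_⟩
  obtain ⟨hA, hB⟩ := (linked_lam hS hp).1 hl
  intro c hc i hei
  by_cases h0 : i = 0
  · rw [h0]
  have h3 := hc i h0 hei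
  rw [Finset.sum_eq_single 0] at h3
  · rcases mul_eq_zero.1 h3 with h4 | h4
    · exact (sub_eq_zero.1 h4).symm
    · exact absurd h4 (mul_ne_zero he (hA i h0))
  · intro j _ hj0
    by_cases hji : j = i
    · rw [hji, sub_self, zero_mul]
    · beta_reduce
      rw [hB i j h0 hj0 hji, mul_zero, mul_zero]
  · exact fun h => absurd (mem_univ _) h

end tup

/-- the number of the linked tuples -/
theorem linked_count : ∃ C : ℝ, 1 ≤ C ∧ ∀ (r : ℕ) (P : Fin (r + 1) → Finset ℕ)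
    (X : Fin (r + 1) → ℕ) (z : ℕ), Sets P X z → Nine P →
    |(({p : Fin (r + 1) → ℕ | (∀ i, p i ∈ P i) ∧ Linked p}.ncard : ℕ) : ℝ) -
      2 ^ r / 3 ^ (r * r) * ∏ j, ((P j).card : ℝ)| ≤
    3 ^ (r * r) * (C * (z : ℝ) ^ (-(1 / 12 : ℝ)) * ∏ j, (X j : ℝ)) := by
  obtain ⟨C, hC1, hC⟩ := joint
  refine ⟨C, hC1, fun r P X z hS h9 => ?_⟩
  have h1 := hC r P X z hS h9 Set.univ
  simp only [Set.mem_univ, iff_true] at h1
  rw [all_card, Nat.cast_pow, Nat.cast_ofNat] at h1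
  have e1 : {p : Fin (r + 1) → ℕ | (∀ i, p i ∈ P i) ∧ ∀ t, NoSplit (tw p t)} =
      {p : Fin (r + 1) → ℕ | (∀ i, p i ∈ P i) ∧ Linked p} := by
    ext p
    simp only [Set.mem_ofPred_eq]
    exact and_congr_right fun hp => all_nosplit_iff hS hp h9
  rw [e1] at h1
  exact h1

end Pool.Agent.R338.CT
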